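import Pool.Agent.H948.HS.Stm

/-!
# Pointwise limit of the hyperbolic walk as the step length tends to zero
-/

set_option autoImplicit false

namespace Pool.Agent.H23.HS

open MeasureTheory ProbabilityTheory Set Filter Metric
open scoped ENNReal NNReal Topology RealInnerProductSpace
open Pool.Agent.H948.HS

variable {m : ℕ}

/-- The horizontal part of a vector. -/
noncomputable def hor (x : E m) : EuclideanSpace ℝ (Fin m) := WithLp.toLp 2 fun i : Fin m => x i.succ

theorem hor_zero : hor (0 : E m) = 0 := by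
  ext i; simp [hor]

theorem hor_add (x y : E m) : hor (x + y) = hor x + hor y := by
  ext i; simp [hor]

theorem norm_sq_eq (x : E m) : ‖x‖ ^ 2 = ‖hor x‖ ^ 2 + (x 0) ^ 2 := by
  rw [EuclideanSpace.norm_sq_eq, EuclideanSpace.norm_sq_eq, Fin.sum_univ_succ]
  simp [hor, add_comm]

theorem inc_zero (x : E m) : inc 0 x = ((0, 1) : Pt m) := by
  simp [inc]

theorem X_zero_eps (u : Om m) (n : ℕ) : X 0 u n = ((0, 1) : Pt m) := by
  induction n with
  | zero => rfl
  | succ n ih =>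
    show act (X 0 u n) (inc 0 (u n : E m)) = _
    rw [ih, inc_zero]
    simp [act]

theorem hasDerivAt_D (x : ℝ) :
    HasDerivAt (fun ε : ℝ => Real.cosh ε - Real.sinh ε * x) (-x) 0 := by
  have h1 := (Real.hasDerivAt_cosh 0).sub ((Real.hasDerivAt_sinh 0).mul_const x)
  exact h1.congr_deriv (by simp)

theorem hasDerivAt_inc_snd (x : E m) :
    HasDerivAt (fun ε : ℝ => (inc ε x).2) (x 0) 0 := by
  have h := (hasDerivAt_D (x 0)).inv (by simp)
  have e : (fun ε : ℝ => (inc ε x).2) = (fun ε : ℝ => Real.cosh ε - Real.sinh ε * x 0)⁻¹ := by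
    funext ε; simp [inc]
  rw [e]
  simpa using h

theorem hasDerivAt_inc_fst (x : E m) :
    HasDerivAt (fun ε : ℝ => (inc ε x).1) (hor x) 0 := by
  have h1 := (Real.hasDerivAt_sinh 0).div (hasDerivAt_D (x 0)) (by simp)
  have h2 := h1.smul_const (hor x)
  simpa [inc, hor] using h2

theorem hasDerivAt_X (u : Om m) (n : ℕ) :
    HasDerivAt (fun ε : ℝ => (X ε u n).2) (ht u 0 n) 0 ∧
    HasDerivAt (fun ε : ℝ => (X ε u n).1) (hor (S u 0 n)) 0 := by
  induction n with
  | zero =>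
    refine ⟨?_, ?_⟩
    · simpa [X, ht_self] using hasDerivAt_const (0 : ℝ) (1 : ℝ)
    · simpa [X, S_self, hor_zero] using hasDerivAt_const (0 : ℝ) (0 : EuclideanSpace ℝ (Fin m))
  | succ n ih =>
    have hi2 := hasDerivAt_inc_snd (u n : E m)
    have hi1 := hasDerivAt_inc_fst (u n : E m)
    refine ⟨?_, ?_⟩
    · have h := ih.1.mul hi2
      have e : ht u 0 (n + 1) = ht u 0 n + (u n : E m) 0 := by
        unfold ht; rw [S_succ u (Nat.zero_le n)]; simp
      rw [e]
      exact h.congr_deriv (by simp [X_zero_eps, inc_zero])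
    · have h := ih.2.add (ih.1.smul hi1)
      rw [S_succ u (Nat.zero_le n), hor_add]
      exact h.congr_deriv (by simp [X_zero_eps, inc_zero])

theorem tendsto_slope_pos {F : Type*} [NormedAddCommGroup F] [NormedSpace ℝ F] {f : ℝ → F} {f' : F}
    (h : HasDerivAt f f' 0) :
    Tendsto (fun ε : ℝ => ε⁻¹ • (f ε - f 0)) (𝓝[>] 0) (𝓝 f') := by
  have h1 := h.tendsto_slope
  have h2 : Tendsto (slope f 0) (𝓝[>] 0) (𝓝 f') :=
    h1.mono_left (nhdsWithin_mono _ fun x hx => ne_of_gt hx)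
  refine h2.congr fun ε => ?_
  simp [slope]

theorem tendsto_arcosh {y : ℝ → ℝ} {N : ℝ} (hN : 0 ≤ N) (hy : ∀ᶠ ε in 𝓝[>] (0 : ℝ), 0 ≤ y ε)
    (h : Tendsto (fun ε : ℝ => y ε / ε ^ 2) (𝓝[>] 0) (𝓝 (N ^ 2 / 2))) :
    Tendsto (fun ε : ℝ => Real.arcosh (1 + y ε) / ε) (𝓝[>] 0) (𝓝 N) := by
  -- `z = √(y / 2)`
  have hz : Tendsto (fun ε : ℝ => √(y ε / 2) / ε) (𝓝[>] 0) (𝓝 (N / 2)) := by
    have h1 : Tendsto (fun ε : ℝ => √((y ε / ε ^ 2) / 2)) (𝓝[>] 0) (𝓝 (√((N ^ 2 / 2) / 2))) :=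
      (Real.continuous_sqrt.tendsto _).comp (h.div_const 2)
    have e1 : √((N ^ 2 / 2) / 2) = N / 2 := by
      rw [show (N ^ 2 / 2) / 2 = (N / 2) ^ 2 by ring, Real.sqrt_sq (by linarith)]
    rw [e1] at h1
    refine h1.congr' ?_
    filter_upwards [self_mem_nhdsWithin] with ε hε
    have hε' : 0 < ε := hε
    rw [show y ε / ε ^ 2 / 2 = (y ε / 2) / ε ^ 2 by ring, Real.sqrt_div' _ (by positivity),
      Real.sqrt_sq hε'.le]
  have hid : Tendsto (fun ε : ℝ => ε) (𝓝[>] 0) (𝓝 0) := nhdsWithin_le_nhds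
  have hz0 : Tendsto (fun ε : ℝ => √(y ε / 2)) (𝓝[>] 0) (𝓝 0) := by
    have h1 := hz.mul hid
    rw [mul_zero] at h1
    refine h1.congr' ?_
    filter_upwards [self_mem_nhdsWithin] with ε hε
    have hε' : (0 : ℝ) < ε := hε
    field_simp
  have hO : (fun ε : ℝ => √(y ε / 2)) =O[𝓝[>] 0] (fun ε : ℝ => ε) :=
    Asymptotics.isBigO_of_div_tendsto_nhds (by
      filter_upwards [self_mem_nhdsWithin] with ε hε h0
      have hε' : (0 : ℝ) < ε := hε
      exact absurd h0 hε'.ne') _ hz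
  have hd : (fun z : ℝ => Real.arsinh z - z) =o[𝓝 0] (fun z : ℝ => z) := by
    have h1 := (Real.hasDerivAt_arsinh 0).isLittleO
    simpa using h1
  have hd2 : (fun ε : ℝ => Real.arsinh (√(y ε / 2)) - √(y ε / 2)) =o[𝓝[>] 0] (fun ε : ℝ => ε) :=
    (hd.comp_tendsto hz0).trans_isBigO hO
  have h3 := hd2.tendsto_div_nhds_zero
  have h4 : Tendsto (fun ε : ℝ => Real.arsinh (√(y ε / 2)) / ε) (𝓝[>] 0) (𝓝 (N / 2)) := by
    have h5 := h3.add hz
    rw [zero_add] at h5
    refine h5.congr fun ε => ?_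
    rw [← add_div]; ring
  have h6 := h4.const_mul 2
  rw [show 2 * (N / 2) = N by ring] at h6
  refine h6.congr' ?_
  filter_upwards [hy] with ε hyε
  have e : Real.arcosh (1 + y ε) = 2 * Real.arsinh (√(y ε / 2)) := by
    have h7 : Real.cosh (2 * Real.arsinh (√(y ε / 2))) = 1 + y ε := by
      rw [Real.cosh_two_mul, Real.cosh_sq, Real.sinh_arsinh, Real.sq_sqrt (by positivity)]
      ring
    rw [← h7, Real.arcosh_cosh]
    have : 0 ≤ Real.arsinh (√(y ε / 2)) := Real.arsinh_nonneg_iff.2 (Real.sqrt_nonneg _)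
    positivity
  rw [e]; ring

theorem s_hpt : S_HPT := by
  intro m u n
  obtain ⟨h2, h1⟩ := hasDerivAt_X u n
  have hid : Tendsto (fun ε : ℝ => ε) (𝓝[>] 0) (𝓝 0) := nhdsWithin_le_nhds
  have ha : Tendsto (fun ε : ℝ => (X ε u n).2) (𝓝[>] 0) (𝓝 1) := by
    have h := h2.continuousAt.tendsto
    rw [X_zero_eps] at h
    exact h.mono_left nhdsWithin_le_nhds
  have ha' : ∀ᶠ ε in 𝓝[>] (0 : ℝ), 0 < (X ε u n).2 := ha.eventually (lt_mem_nhds one_pos)
  constructor
  · unfold Dn hdist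
    refine tendsto_arcosh (norm_nonneg _) ?_ ?_
    · filter_upwards [ha'] with ε hε
      simp only [mul_one]
      positivity
    · have hb := (tendsto_slope_pos h1).norm.pow 2
      have hc := (tendsto_slope_pos h2).pow 2
      have hs := ((hb.add hc).div (ha.const_mul 2) (by norm_num))
      have e : (‖hor (S u 0 n)‖ ^ 2 + ht u 0 n ^ 2) / (2 * 1) = ‖S u 0 n‖ ^ 2 / 2 := by
        rw [norm_sq_eq (S u 0 n)]; unfold ht; ring
      rw [e] at hs
      refine hs.congr' ?_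
      filter_upwards [self_mem_nhdsWithin, ha'] with ε hε hε2
      have hε' : (0 : ℝ) < ε := hε
      simp only [X_zero_eps, sub_zero, zero_sub, norm_neg, norm_smul, norm_inv, Real.norm_eq_abs,
        abs_of_pos hε', smul_eq_mul, mul_one, Pi.add_apply, Pi.div_apply]
      field_simp
      ring
  · unfold Hn
    have h3 := (Real.hasDerivAt_log (x := (X 0 u n).2) (by rw [X_zero_eps]; norm_num)).comp 0 h2
    have h4 := tendsto_slope_pos h3
    have e : ((X 0 u n).2)⁻¹ * ht u 0 n = ht u 0 n := by rw [X_zero_eps]; simp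
    rw [e] at h4
    refine h4.congr fun ε => ?_
    simp [X_zero_eps, div_eq_inv_mul]

end Pool.Agent.H23.HS
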